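import Pool.Agent.W438.CY.Stm

set_option autoImplicit false
set_option maxHeartbeats 4000000

namespace Pool.Agent.W172.CY

open Function Pool.Agent.W438.CY

theorem I_true {p : Prop} (h : p) : I p = 1 := by unfold I; simp [h]
theorem I_false {p : Prop} (h : ¬ p) : I p = 0 := by unfold I; simp [h]
theorem I_congr {p q : Prop} (h : p ↔ q) : I p = I q := by rw [propext h]
theorem I_abs (p : Prop) : |I p| ≤ 1 := by
  by_cases h : p
  · rw [I_true h]; simp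
  · rw [I_false h]; simp
theorem I_and (p q : Prop) : I (p ∧ q) = I p * I q := by
  by_cases h : p
  · by_cases h' : q
    · rw [I_true h, I_true h', I_true ⟨h, h'⟩]; simp
    · rw [I_false h', I_false (fun hh => h' hh.2)]; simp
  · rw [I_false h, I_false (fun hh => h hh.1)]; simp

theorem pl1 {P B K L N W E : Prop} (hB : B) :
    ((P ∧ B ∧ K) ∧ L ∧ E ∧ N ∧ W) ↔ ((P ∧ N ∧ (¬ B ∨ E)) ∧ (K ∧ W) ∧ L) := by tauto
theorem pl2 {P B K L N W E J : Prop} (hB : ¬ B) (hJ : J) :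
    ((P ∧ ¬ B ∧ K) ∧ L ∧ J ∧ N ∧ W) ↔ ((P ∧ N ∧ (¬ B ∨ E)) ∧ (K ∧ W) ∧ L) := by tauto
theorem pl3 {P B K L N W J : Prop} (hJ : J) :
    ((P ∧ ¬ B ∧ K) ∧ L ∧ J ∧ N ∧ W) ↔ ((P ∧ N ∧ ¬ B) ∧ (K ∧ W) ∧ L) := by tauto
theorem pl4 {P B K : Prop} : (P ∧ ¬ B ∧ K) ↔ ((P ∧ K) ∧ ¬ B) := by tauto
theorem pl5 {P K L G : Prop} : ((P ∧ K) ∧ L ∧ G) ↔ (G ∧ P ∧ K ∧ L) := by tauto

/-- bounded -/
def Bdd {α : Type} (F : α → ℝ) : Prop := ∃ K, ∀ p, |F p| ≤ K

theorem Bdd.add {α : Type} {F G : α → ℝ} (hF : Bdd F) (hG : Bdd G) : Bdd (fun p => F p + G p) := by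
  obtain ⟨K, hK⟩ := hF
  obtain ⟨L, hL⟩ := hG
  exact ⟨K + L, fun p => (abs_add_le _ _).trans (add_le_add (hK p) (hL p))⟩

theorem Bdd.mul {α : Type} {F G : α → ℝ} (hF : Bdd F) (hG : Bdd G) : Bdd (fun p => F p * G p) := by
  obtain ⟨K, hK⟩ := hF
  obtain ⟨L, hL⟩ := hG
  refine ⟨K * L, fun p => ?_⟩
  rw [abs_mul]
  exact mul_le_mul (hK p) (hL p) (abs_nonneg _) ((abs_nonneg _).trans (hK p))

theorem Bdd.I {α : Type} (F : α → Prop) : Bdd (fun p => I (F p)) := ⟨1, fun p => I_abs _⟩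

theorem Bdd.const {α : Type} (c : ℝ) : Bdd (fun _ : α => c) := ⟨|c|, fun _ => le_rfl⟩

theorem Bdd.sum {α ι : Type} (s : Finset ι) {F : ι → α → ℝ} (hF : ∀ i ∈ s, Bdd (F i)) :
    Bdd (fun p => ∑ i ∈ s, F i p) := by
  classical
  induction s using Finset.induction_on with
  | empty => simpa using Bdd.const (α := α) 0
  | insert a s ha ih =>
    simp only [Finset.sum_insert ha]
    exact (hF a (Finset.mem_insert_self a s)).add
      (ih (fun i hi => hF i (Finset.mem_insert_of_mem hi)))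

section
variable {m : ℕ} {t : ℝ}

theorem SS_add (hS : ∀ F : (Fin m → ℕ) × ℕ → ℝ, (∃ K, ∀ p, |F p| ≤ K) →
    Summable (fun p : (Fin m → ℕ) × ℕ => t ^ (∑ l, p.1 l + p.2) * F p))
    {F G : (Fin m → ℕ) × ℕ → ℝ} (hF : Bdd F) (hG : Bdd G) :
    SS t (fun p => F p + G p) = SS t F + SS t G := by
  unfold SS
  rw [← (hS F hF).tsum_add (hS G hG)]
  exact tsum_congr (fun p => by ring)

theorem SS_cmul (c : ℝ) (F : (Fin m → ℕ) × ℕ → ℝ) :
    SS t (fun p => c * F p) = c * SS t F := by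
  unfold SS
  rw [← tsum_mul_left]
  exact tsum_congr (fun p => by ring)

theorem SS_zero : SS t (fun _ : (Fin m → ℕ) × ℕ => (0 : ℝ)) = 0 := by
  unfold SS; simp

theorem SS_sum (hS : ∀ F : (Fin m → ℕ) × ℕ → ℝ, (∃ K, ∀ p, |F p| ≤ K) →
    Summable (fun p : (Fin m → ℕ) × ℕ => t ^ (∑ l, p.1 l + p.2) * F p))
    {ι : Type} (s : Finset ι) {F : ι → (Fin m → ℕ) × ℕ → ℝ} (hF : ∀ i ∈ s, Bdd (F i)) :
    SS t (fun p => ∑ i ∈ s, F i p) = ∑ i ∈ s, SS t (F i) := by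
  classical
  induction s using Finset.induction_on with
  | empty => simpa using SS_zero (m := m) (t := t)
  | insert a s ha ih =>
    simp only [Finset.sum_insert ha]
    rw [SS_add hS (hF a (Finset.mem_insert_self a s))
      (Bdd.sum s (fun i hi => hF i (Finset.mem_insert_of_mem hi))),
      ih (fun i hi => hF i (Finset.mem_insert_of_mem hi))]

theorem SS_congr {F G : (Fin m → ℕ) × ℕ → ℝ} (h : ∀ p, F p = G p) : SS t F = SS t G := by
  rw [show F = G from funext h]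

end

/-- the pointwise identity -/
theorem pointwise (hC : S_CNT) (hI : S_INI) (m : ℕ) (C : Type) [Fintype C] (x : Fin m → C)
    (wa : C → Prop) (g : Fin m → ℕ) (β : ℕ) (hP : Pr x g β) (hB : ¬ Bd g β) (hK : Kc x wa g β) :
    ∑ c, I (Al x g β c ∧ (β = 0 → ¬ wa c)) + 1 + I (∃ l, g l < β) + I (β = 0) * ∑ c, I (wa c)
      + ∑ j, I (Lf g β j ∧ β < g j ∧ NewL x g β j ∧ (β = 0 → ¬ wa (x j)))
      + ∑ j, I (Rt g β j ∧ β ≤ g j ∧ NewR x g β j ∧ (β = 0 → ¬ wa (x j)))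
      = (Fintype.card C : ℝ) := by
  classical
  obtain ⟨i1, i2, i3, i4⟩ := hI m C x g β
  have key : ∀ (D : Fin m → Prop), ∑ c, I (β = 0 → ¬ wa c) * ∑ j, I (D j ∧ x j = c)
      = ∑ j, I (D j ∧ (β = 0 → ¬ wa (x j))) := by
    intro D
    simp only [Finset.mul_sum]
    rw [Finset.sum_comm]
    refine Finset.sum_congr rfl (fun j _ => ?_)
    rw [Finset.sum_eq_single (x j)]
    · rw [← I_and]
      exact I_congr (by tauto)
    · intro c _ hc
      rw [I_false (p := D j ∧ x j = c) (fun h => hc h.2.symm), mul_zero]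
    · intro h; exact absurd (Finset.mem_univ _) h
  have s1 : ∑ c, I (β = 0 → ¬ wa c) * (I (Al x g β c)
      + ∑ j, I (Lf g β j ∧ NewL x g β j ∧ x j = c)
      + ∑ j, I (Rt g β j ∧ NewR x g β j ∧ x j = c)) = ∑ c, I (β = 0 → ¬ wa c) := by
    refine Finset.sum_congr rfl (fun c _ => ?_)
    rw [hC m C x g β c, mul_one]
  have s2 : ∑ c, I (β = 0 → ¬ wa c) + I (β = 0) * ∑ c, I (wa c) = (Fintype.card C : ℝ) := by
    have hcard : (Fintype.card C : ℝ) = ∑ _c : C, (1 : ℝ) := by simp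
    rw [Finset.mul_sum, ← Finset.sum_add_distrib, hcard]
    refine Finset.sum_congr rfl (fun c _ => ?_)
    by_cases hb : β = 0
    · by_cases hw : wa c
      · rw [I_true hb, I_true hw, I_false (fun h => h hb hw)]; simp
      · rw [I_true hb, I_false hw, I_true (fun _ => hw)]; simp
    · rw [I_false hb, I_true (fun h => absurd h hb)]; simp
  have s3 : ∑ c, I (β = 0 → ¬ wa c) * (I (Al x g β c)
      + ∑ j, I (Lf g β j ∧ NewL x g β j ∧ x j = c)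
      + ∑ j, I (Rt g β j ∧ NewR x g β j ∧ x j = c))
      = ∑ c, I (Al x g β c ∧ (β = 0 → ¬ wa c))
        + ∑ j, I ((Lf g β j ∧ NewL x g β j) ∧ (β = 0 → ¬ wa (x j)))
        + ∑ j, I ((Rt g β j ∧ NewR x g β j) ∧ (β = 0 → ¬ wa (x j))) := by
    rw [← key (fun j => Lf g β j ∧ NewL x g β j), ← key (fun j => Rt g β j ∧ NewR x g β j),
      ← Finset.sum_add_distrib, ← Finset.sum_add_distrib]
    refine Finset.sum_congr rfl (fun c _ => ?_)
    rw [mul_add, mul_add, ← I_and, I_congr (and_comm (a := (β = 0 → ¬ wa c)))]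
    simp only [and_assoc]
  have l1 : ∑ j, I ((Lf g β j ∧ NewL x g β j) ∧ (β = 0 → ¬ wa (x j)))
      = ∑ j, I (Lf g β j ∧ β < g j ∧ NewL x g β j ∧ (β = 0 → ¬ wa (x j))) + 1 := by
    have : (1 : ℝ) = ∑ j, I (Lf g β j ∧ g j ≤ β) := by rw [i1, I_true hB]
    rw [this, ← Finset.sum_add_distrib]
    refine Finset.sum_congr rfl (fun j _ => ?_)
    by_cases hj : g j ≤ β
    · rw [I_false (p := Lf g β j ∧ β < g j ∧ NewL x g β j ∧ (β = 0 → ¬ wa (x j)))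
        (fun h => absurd h.2.1 (not_lt.mpr hj)), zero_add]
      refine I_congr ⟨fun h => ⟨h.1.1, hj⟩, fun h => ⟨⟨h.1, i3 hP j h.1 h.2⟩, fun hb => ?_⟩⟩
      exact hK.2 j (by omega)
    · rw [I_false (p := Lf g β j ∧ g j ≤ β) (fun h => hj h.2), add_zero]
      exact I_congr ⟨fun h => ⟨h.1.1, not_le.mp hj, h.1.2, h.2⟩, fun h => ⟨⟨h.1, h.2.2.1⟩, h.2.2.2⟩⟩
  have r1 : ∑ j, I ((Rt g β j ∧ NewR x g β j) ∧ (β = 0 → ¬ wa (x j)))
      = ∑ j, I (Rt g β j ∧ β ≤ g j ∧ NewR x g β j ∧ (β = 0 → ¬ wa (x j))) + I (∃ l, g l < β) := by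
    rw [← i2, ← Finset.sum_add_distrib]
    refine Finset.sum_congr rfl (fun j _ => ?_)
    by_cases hj : g j < β
    · rw [I_false (p := Rt g β j ∧ β ≤ g j ∧ NewR x g β j ∧ (β = 0 → ¬ wa (x j)))
        (fun h => absurd h.2.1 (not_le.mpr hj)), zero_add]
      exact I_congr ⟨fun h => ⟨h.1.1, hj⟩, fun h => ⟨⟨h.1, i4 hP j h.1 h.2⟩, fun hb => by omega⟩⟩
    · rw [I_false (p := Rt g β j ∧ g j < β) (fun h => hj h.2), add_zero]
      exact I_congr ⟨fun h => ⟨h.1.1, not_lt.mp hj, h.1.2, h.2⟩, fun h => ⟨⟨h.1, h.2.2.1⟩, h.2.2.2⟩⟩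
  rw [s1, l1, r1] at s3
  linarith

theorem main : S_LL → S_LR → S_CNT → S_INI → S_INV → S_SUM → S_TS → S_MAIN := by
  intro hLL hLR hC hI hV hSum hT m C _ x wa t ht0 ht1 hq
  have hS := (hSum m t ht0 ht1).2
  set A : ℝ := SS t (fun p : (Fin m → ℕ) × ℕ =>
    I (Pr x p.1 p.2 ∧ ¬ Bd p.1 p.2 ∧ Kc x wa p.1 p.2)) with hA
  set Ar : ℝ := SS t (fun p : (Fin m → ℕ) × ℕ =>
    I (Pr x p.1 p.2 ∧ ¬ Bd p.1 p.2 ∧ Kc x wa p.1 p.2 ∧ ∃ l, p.1 l < p.2)) with hAr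
  set Are : ℝ := SS t (fun p : (Fin m → ℕ) × ℕ =>
    I (Pr x p.1 p.2 ∧ ¬ Bd p.1 p.2 ∧ Kc x wa p.1 p.2 ∧ p.2 = 0)) with hAre
  set Z : ℝ := ∑ c, SS t (fun p : (Fin m → ℕ) × ℕ => I (Pr x p.1 p.2 ∧ ¬ Bd p.1 p.2 ∧
    Kc x wa p.1 p.2 ∧ Al x p.1 p.2 c ∧ (p.2 = 0 → ¬ wa c))) with hZ
  set Co : ℝ := SS t (fun p : (Fin m → ℕ) × ℕ => I (Pr x p.1 p.2 ∧ Bd p.1 p.2 ∧ Kc x wa p.1 p.2) *
          ∑ j, I (Lf p.1 p.2 j ∧ p.1 j = p.2 + 1 ∧ NewL x p.1 p.2 j ∧ (p.2 = 0 → ¬ wa (x j))))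
    with hCo
  set LL : ℝ := SS t (fun p : (Fin m → ℕ) × ℕ => I (Pr x p.1 p.2 ∧ ¬ Bd p.1 p.2 ∧ Kc x wa p.1 p.2) *
          ∑ j, I (Lf p.1 p.2 j ∧ p.2 < p.1 j ∧ NewL x p.1 p.2 j ∧ (p.2 = 0 → ¬ wa (x j))))
    with hLLd
  set RR : ℝ := SS t (fun p : (Fin m → ℕ) × ℕ => I (Pr x p.1 p.2 ∧ ¬ Bd p.1 p.2 ∧ Kc x wa p.1 p.2) *
          ∑ j, I (Rt p.1 p.2 j ∧ p.2 ≤ p.1 j ∧ NewR x p.1 p.2 j ∧ (p.2 = 0 → ¬ wa (x j))))
    with hRRd
  have e1 : A = Ar + Are := by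
    rw [hA, hAr, hAre, ← SS_add hS (Bdd.I _) (Bdd.I _)]
    refine SS_congr (fun p => ?_)
    by_cases hb : p.2 = 0
    · rw [I_false (p := Pr x p.1 p.2 ∧ ¬ Bd p.1 p.2 ∧ Kc x wa p.1 p.2 ∧ ∃ l, p.1 l < p.2)
        (fun h => by obtain ⟨l, hl⟩ := h.2.2.2; omega), zero_add]
      exact I_congr (by tauto)
    · rw [I_false (p := Pr x p.1 p.2 ∧ ¬ Bd p.1 p.2 ∧ Kc x wa p.1 p.2 ∧ p.2 = 0)
        (fun h => hb h.2.2.2), add_zero]
      refine I_congr ⟨fun h => ⟨h.1, h.2.1, h.2.2, ?_⟩, fun h => ⟨h.1, h.2.1, h.2.2.1⟩⟩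
      rcases h.2.2.1 with h0 | ⟨l, hl⟩
      · exact absurd h0 hb
      · exact ⟨l, by omega⟩
  have e2 : LL + Co = t * A := by
    have h1 : LL + Co = SS t (fun p : (Fin m → ℕ) × ℕ => ∑ j, I (p.2 < p.1 j) *
        I (Pr x (update p.1 j p.2) (p.1 j - 1) ∧ Kc x wa (update p.1 j p.2) (p.1 j - 1) ∧
          Lf (update p.1 j p.2) (p.1 j - 1) j)) := by
      rw [hLLd, hCo, ← SS_add hS ((Bdd.I _).mul (Bdd.sum _ (fun j _ => Bdd.I _)))
        ((Bdd.I _).mul (Bdd.sum _ (fun j _ => Bdd.I _)))]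
      refine SS_congr (fun p => ?_)
      obtain ⟨g, β⟩ := p
      simp only [Finset.mul_sum]
      rw [← Finset.sum_add_distrib]
      refine Finset.sum_congr rfl (fun j _ => ?_)
      obtain ⟨v1, v2, v3, v4⟩ := hV m C x wa g β j
      by_cases hj : β < g j
      · by_cases hL : Lf g β j
        · have hll := hLL m C x g β j hL hj
          rw [I_true hj, one_mul, I_congr (and_congr hll (and_congr (v1 hj) (v3 hj)))]
          by_cases hB : Bd g β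
          · rw [I_false (p := Pr x g β ∧ ¬ Bd g β ∧ Kc x wa g β) (fun h => h.2.1 hB), zero_mul,
              zero_add, ← I_and]
            exact I_congr (pl1 hB)
          · rw [I_false (p := Pr x g β ∧ Bd g β ∧ Kc x wa g β) (fun h => hB h.2.1), zero_mul,
              add_zero, ← I_and]
            exact I_congr (pl2 hB hj)
        · rw [I_false (p := Lf g β j ∧ β < g j ∧ NewL x g β j ∧ (β = 0 → ¬ wa (x j)))
            (fun h => hL h.1), I_false (p := Lf g β j ∧ g j = β + 1 ∧ NewL x g β j ∧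
            (β = 0 → ¬ wa (x j))) (fun h => hL h.1),
            I_false (p := Pr x (update g j β) (g j - 1) ∧ Kc x wa (update g j β) (g j - 1) ∧
          Lf (update g j β) (g j - 1) j) (fun h => hL ((v3 hj).1 h.2.2))]
          ring
      · rw [I_false hj, I_false (p := Lf g β j ∧ β < g j ∧ NewL x g β j ∧ (β = 0 → ¬ wa (x j)))
            (fun h => hj h.2.1), I_false (p := Lf g β j ∧ g j = β + 1 ∧ NewL x g β j ∧
            (β = 0 → ¬ wa (x j))) (fun h => hj (by omega))]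
        ring
    have h2 : t * A = ∑ j, t * SS t (fun p : (Fin m → ℕ) × ℕ => I (p.1 j ≤ p.2) *
        I (Pr x p.1 p.2 ∧ Kc x wa p.1 p.2 ∧ Lf p.1 p.2 j)) := by
      rw [← Finset.mul_sum, ← SS_sum hS _ (fun j _ => (Bdd.I _).mul (Bdd.I _)), hA]
      congr 1
      refine SS_congr (fun p => ?_)
      obtain ⟨g, β⟩ := p
      obtain ⟨i1, i2, i3, i4⟩ := hI m C x g β
      have : I (Pr x g β ∧ ¬ Bd g β ∧ Kc x wa g β) = I (Pr x g β ∧ Kc x wa g β) *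
          ∑ j, I (Lf g β j ∧ g j ≤ β) := by
        rw [i1, ← I_and]; exact I_congr pl4
      simp only
      rw [this, Finset.mul_sum]
      refine Finset.sum_congr rfl (fun j _ => ?_)
      rw [← I_and, ← I_and]
      exact I_congr pl5
    rw [h1, h2, SS_sum hS _ (fun j _ => (Bdd.I _).mul (Bdd.I _))]
    refine Finset.sum_congr rfl (fun j _ => ?_)
    exact (hT m t j (fun p => I (Pr x p.1 p.2 ∧ Kc x wa p.1 p.2 ∧ Lf p.1 p.2 j)) ht0 ht1).1
  have e3 : t * RR = Ar := by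
    have h1 : RR = SS t (fun p : (Fin m → ℕ) × ℕ => ∑ j, I (p.2 ≤ p.1 j) *
        I (Pr x (update p.1 j p.2) (p.1 j + 1) ∧ Kc x wa (update p.1 j p.2) (p.1 j + 1) ∧
          Rt (update p.1 j p.2) (p.1 j + 1) j)) := by
      rw [hRRd]
      refine SS_congr (fun p => ?_)
      obtain ⟨g, β⟩ := p
      simp only [Finset.mul_sum]
      refine Finset.sum_congr rfl (fun j _ => ?_)
      obtain ⟨v1, v2, v3, v4⟩ := hV m C x wa g β j
      by_cases hj : β ≤ g j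
      · by_cases hL : Rt g β j
        · have hll := hLR m C x g β j hL hj
          rw [I_true hj, one_mul, I_congr (and_congr hll (and_congr (v2 hj) (v4 hj))), ← I_and]
          exact I_congr (pl3 hj)
        · rw [I_false (p := Rt g β j ∧ β ≤ g j ∧ NewR x g β j ∧ (β = 0 → ¬ wa (x j)))
            (fun h => hL h.1),
            I_false (p := Pr x (update g j β) (g j + 1) ∧ Kc x wa (update g j β) (g j + 1) ∧
          Rt (update g j β) (g j + 1) j) (fun h => hL ((v4 hj).1 h.2.2))]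
          ring
      · rw [I_false hj, I_false (p := Rt g β j ∧ β ≤ g j ∧ NewR x g β j ∧ (β = 0 → ¬ wa (x j)))
            (fun h => hj h.2.1)]
        ring
    have h2 : Ar = ∑ j, SS t (fun p : (Fin m → ℕ) × ℕ => I (p.1 j < p.2) *
        I (Pr x p.1 p.2 ∧ Kc x wa p.1 p.2 ∧ Rt p.1 p.2 j)) := by
      rw [← SS_sum hS _ (fun j _ => (Bdd.I _).mul (Bdd.I _)), hAr]
      refine SS_congr (fun p => ?_)
      obtain ⟨g, β⟩ := p
      obtain ⟨i1, i2, i3, i4⟩ := hI m C x g β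
      have : I (Pr x g β ∧ ¬ Bd g β ∧ Kc x wa g β ∧ ∃ l, g l < β) = I (Pr x g β ∧ Kc x wa g β) *
          ∑ j, I (Rt g β j ∧ g j < β) := by
        rw [i2, ← I_and]
        refine I_congr ⟨fun h => ⟨⟨h.1, h.2.2.1⟩, h.2.2.2⟩, fun h => ⟨h.1.1, ?_, h.1.2, h.2⟩⟩
        intro hB
        obtain ⟨l, hl⟩ := h.2
        exact absurd (hB l) (by omega)
      simp only
      rw [this, Finset.mul_sum]
      refine Finset.sum_congr rfl (fun j _ => ?_)
      rw [← I_and, ← I_and]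
      exact I_congr pl5
    rw [h1, h2, SS_sum hS _ (fun j _ => (Bdd.I _).mul (Bdd.I _)), Finset.mul_sum]
    refine Finset.sum_congr rfl (fun j _ => ?_)
    exact (hT m t j (fun p => I (Pr x p.1 p.2 ∧ Kc x wa p.1 p.2 ∧ Rt p.1 p.2 j)) ht0 ht1).2
  have e4 : Z + A + Ar + (∑ c, I (wa c)) * Are + LL + RR = (Fintype.card C : ℝ) * A := by
    rw [hZ, ← SS_sum hS _ (fun c _ => Bdd.I _), hAre, ← SS_cmul, hA, hAr, hLLd, hRRd, ← SS_cmul]
    rw [← SS_add hS (Bdd.sum _ (fun c _ => Bdd.I _)) (Bdd.I _),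
      ← SS_add hS ((Bdd.sum _ (fun c _ => Bdd.I _)).add (Bdd.I _)) (Bdd.I _),
      ← SS_add hS (((Bdd.sum _ (fun c _ => Bdd.I _)).add (Bdd.I _)).add (Bdd.I _))
        ((Bdd.const _).mul (Bdd.I _)),
      ← SS_add hS ((((Bdd.sum _ (fun c _ => Bdd.I _)).add (Bdd.I _)).add (Bdd.I _)).add
        ((Bdd.const _).mul (Bdd.I _))) ((Bdd.I _).mul (Bdd.sum _ (fun j _ => Bdd.I _))),
      ← SS_add hS (((((Bdd.sum _ (fun c _ => Bdd.I _)).add (Bdd.I _)).add (Bdd.I _)).add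
        ((Bdd.const _).mul (Bdd.I _))).add ((Bdd.I _).mul (Bdd.sum _ (fun j _ => Bdd.I _))))
        ((Bdd.I _).mul (Bdd.sum _ (fun j _ => Bdd.I _)))]
    refine SS_congr (fun p => ?_)
    obtain ⟨g, β⟩ := p
    simp only
    by_cases hE : Pr x g β ∧ ¬ Bd g β ∧ Kc x wa g β
    · have hw := pointwise hC hI m C x wa g β hE.1 hE.2.1 hE.2.2
      rw [I_true hE, ← hw]
      have a1 : ∑ c, I (Pr x g β ∧ ¬ Bd g β ∧ Kc x wa g β ∧ Al x g β c ∧ (β = 0 → ¬ wa c))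
          = ∑ c, I (Al x g β c ∧ (β = 0 → ¬ wa c)) :=
        Finset.sum_congr rfl (fun c _ => I_congr (by tauto))
      have a2 : I (Pr x g β ∧ ¬ Bd g β ∧ Kc x wa g β ∧ ∃ l, g l < β) = I (∃ l, g l < β) :=
        I_congr (by tauto)
      have a3 : I (Pr x g β ∧ ¬ Bd g β ∧ Kc x wa g β ∧ β = 0) = I (β = 0) :=
        I_congr (by tauto)
      rw [a1, a2, a3]
      ring
    · have a1 : ∑ c, I (Pr x g β ∧ ¬ Bd g β ∧ Kc x wa g β ∧ Al x g β c ∧ (β = 0 → ¬ wa c))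
          = 0 := Finset.sum_eq_zero (fun c _ => I_false (fun h => hE ⟨h.1, h.2.1, h.2.2.1⟩))
      rw [a1, I_false hE, I_false (p := Pr x g β ∧ ¬ Bd g β ∧ Kc x wa g β ∧ ∃ l, g l < β)
        (fun h => hE ⟨h.1, h.2.1, h.2.2.1⟩),
        I_false (p := Pr x g β ∧ ¬ Bd g β ∧ Kc x wa g β ∧ β = 0)
        (fun h => hE ⟨h.1, h.2.1, h.2.2.1⟩)]
      ring
  have ht : t ≠ 0 := ht0.ne'
  have e5 : RR = Ar / t := by rw [← e3]; field_simp
  rw [hq, e5, e1] at e4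
  rw [e1] at e2
  have e6 : LL = t * (Ar + Are) - Co := by linarith
  rw [e6] at e4
  have : Z = (t + 1 / t + 2) * (Ar + Are) - (Ar + Are) - Ar - (∑ c, I (wa c)) * Are
      - (t * (Ar + Are) - Co) - Ar / t := by linarith
  rw [this]
  ring

end Pool.Agent.W172.CY
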